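import Pool.Agent.Work.MP_46fa68_86.EndG3
import Pool.Agent.Work.MP_46fa68_74.Edge0
import Pool.Agent.Work.MP_46fa68_74.Scale

/-! # `Spec t κ` from a class function certificate at `(t + 2, 1)` (helper87)

`|T| = t`, nobody misses two cells of `T`.  `A_0` (members containing `T`) together with the members missing `x`
is an intersecting family of `S_(t+2)` in which `A_0` is the part through a cell.  A joint certificate at
`(t + 2, 1)` bounds the number of members missing `x` from above, and some `x` is missed by at least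
`(1 - a) (t+1)! / t` members. -/

set_option autoImplicit false

open Finset Equiv

namespace Pool.EG

open Pool.JM (ScIneq)

variable {n : ℕ}

/-- the cell inequality for families in a star of `k` rows -/
theorem cell_star {N : ℕ} {W1 W2 s11 s12 s22 : ℝ} (hE : CellIneq N 1 W1 W2 s11 s12 s22) {k : ℕ}
    (hn : N = n - k) {g : Perm (Fin n)} {T : Finset (Fin n)} (hk : T.card = k)
    {A : Finset (Perm (Fin n))} (hA : TInt (k + 1) A) (hT : ∀ σ ∈ A, ∀ i ∈ T, σ i = g i)
    (x : Fin n) (hx : x ∉ T) :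
    0 ≤ (W1 * ((thr A x (g x)).card : ℝ) + W2 * ((A.filter fun σ => σ x ≠ g x).card : ℝ)) -
      (s11 * ((thr A x (g x)).card : ℝ) ^ 2 +
        2 * s12 * ((thr A x (g x)).card : ℝ) * ((A.filter fun σ => σ x ≠ g x).card : ℝ) +
        s22 * ((A.filter fun σ => σ x ≠ g x).card : ℝ) ^ 2) / (n - k - 1).factorial := by
  classical
  subst hn
  obtain ⟨φ, r, hφ, hr, hrT, hrs, h1, h2, h3⟩ := exists_red g T hk
  set A' : Finset (Perm (Fin (n - k))) := univ.filter (fun ρ => φ ρ ∈ A) with hA'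
  have hint : TInt 1 A' := by
    intro ρ hρ τ hτ
    have h4 := hA _ (mem_filter.1 hρ).2 _ (mem_filter.1 hτ).2
    rw [ag_red hk hr hrT hrs h1 h2] at h4
    omega
  obtain ⟨i, rfl⟩ := hrs x hx
  have hth : thr A (r i) (g (r i)) = (thr A' i i).map ⟨φ, hφ⟩ := by
    ext σ
    unfold thr
    rw [mem_filter, mem_map]
    constructor
    · rintro ⟨hσ, hσ2⟩
      obtain ⟨ρ, rfl⟩ := h3 σ (hT σ hσ)
      refine ⟨ρ, mem_filter.2 ⟨mem_filter.2 ⟨mem_univ _, hσ⟩, ?_⟩, rfl⟩
      rw [h2] at hσ2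
      exact hr (g.injective hσ2)
    · rintro ⟨ρ, hρ, rfl⟩
      rw [mem_filter] at hρ
      refine ⟨(mem_filter.1 hρ.1).2, ?_⟩
      change φ ρ (r i) = g (r i)
      rw [h2, hρ.2]
  have hth2 : A.filter (fun σ => σ (r i) ≠ g (r i)) =
      (A'.filter (fun ρ => ρ i ≠ i)).map ⟨φ, hφ⟩ := by
    ext σ
    rw [mem_filter, mem_map]
    constructor
    · rintro ⟨hσ, hσ2⟩
      obtain ⟨ρ, rfl⟩ := h3 σ (hT σ hσ)
      refine ⟨ρ, mem_filter.2 ⟨mem_filter.2 ⟨mem_univ _, hσ⟩, ?_⟩, rfl⟩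
      intro h4
      apply hσ2
      rw [h2, h4]
    · rintro ⟨ρ, hρ, rfl⟩
      rw [mem_filter] at hρ
      refine ⟨(mem_filter.1 hρ.1).2, ?_⟩
      intro h4
      apply hρ.2
      have h5 : φ ρ (r i) = g (r i) := h4
      rw [h2] at h5
      exact hr (g.injective h5)
  rw [hth, card_map, hth2, card_map]
  exact hE A' hint i i

/-- product form of the scaled cell inequalities -/
theorem scaled_prod {W1 W2 s11 s12 s22 X Y F : ℝ} (hF : 0 < F) (hX : 0 < X) (hY : 0 < Y)
    (hs12 : 0 ≤ s12) (hP : 0 < W1 - s11 * (X / F))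
    (h : ∀ c : ℝ, 0 ≤ c → 0 ≤ (c ^ 2 * W1 * X + W2 * Y) -
      (c ^ 2 * s11 * X ^ 2 + 2 * (c * s12) * X * Y + s22 * Y ^ 2) / F) :
    s12 ^ 2 * (X / F) * (Y / F) ≤ (W1 - s11 * (X / F)) * (W2 - s22 * (Y / F)) := by
  set a := X / F with ha
  set y := Y / F with hy
  have hXa : X = a * F := by rw [ha]; field_simp
  have hYy : Y = y * F := by rw [hy]; field_simp
  have ha0 : 0 < a := div_pos hX hF
  have hy0 : 0 < y := div_pos hY hF
  set P := W1 - s11 * a with hPd
  have h1 := h (s12 * y / P) (div_nonneg (mul_nonneg hs12 hy0.le) hP.le)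
  rw [hXa, hYy] at h1
  have h2 : (s12 * y / P) ^ 2 * W1 * (a * F) + W2 * (y * F) -
      ((s12 * y / P) ^ 2 * s11 * (a * F) ^ 2 + 2 * ((s12 * y / P) * s12) * (a * F) * (y * F) +
        s22 * (y * F) ^ 2) / F =
      F * y / P * (P * (W2 - s22 * y) - s12 ^ 2 * a * y) := by
    rw [hPd]
    rw [hPd] at hP
    field_simp
    ring
  rw [h2] at h1
  have h3 : 0 < F * y / P := div_pos (mul_pos hF hy0) hP
  have h4 := nonneg_of_mul_nonneg_right h1 h3
  linarith

/-- concavity -/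
theorem conc_pos {W1 W2 s11 s22 c κ κ1 a t : ℝ} (hc : 0 ≤ c) (h1 : κ ≤ a) (h2 : a ≤ κ1)
    (hk : κ < κ1)
    (g1 : t * ((W1 - s11 * κ) * W2) < (1 - κ) * (W1 * s22 + c * κ))
    (g2 : t * ((W1 - s11 * κ1) * W2) < (1 - κ1) * (W1 * s22 + c * κ1)) :
    t * ((W1 - s11 * a) * W2) < (1 - a) * (W1 * s22 + c * a) := by
  have e : ((1 - a) * (W1 * s22 + c * a) - t * ((W1 - s11 * a) * W2)) * (κ1 - κ) =
      (κ1 - a) * ((1 - κ) * (W1 * s22 + c * κ) - t * ((W1 - s11 * κ) * W2)) +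
      (a - κ) * ((1 - κ1) * (W1 * s22 + c * κ1) - t * ((W1 - s11 * κ1) * W2)) +
      c * (κ1 - κ) * (a - κ) * (κ1 - a) := by ring
  have hkk : 0 < κ1 - κ := by linarith
  have h3 : 0 ≤ c * (κ1 - κ) * (a - κ) * (κ1 - a) :=
    mul_nonneg (mul_nonneg (mul_nonneg hc hkk.le) (by linarith)) (by linarith)
  have h4 : 0 < (κ1 - a) * ((1 - κ) * (W1 * s22 + c * κ) - t * ((W1 - s11 * κ) * W2)) +
      (a - κ) * ((1 - κ1) * (W1 * s22 + c * κ1) - t * ((W1 - s11 * κ1) * W2)) := by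
    rcases h1.lt_or_eq with h | h
    · have h5 := mul_pos (sub_pos.2 h) (sub_pos.2 g2)
      have h6 := mul_nonneg (sub_nonneg.2 h2) (sub_pos.2 g1).le
      linarith
    · subst h
      have h5 := mul_pos hkk (sub_pos.2 g1)
      have h6 : (κ - κ) * ((1 - κ1) * (W1 * s22 + c * κ1) - t * ((W1 - s11 * κ1) * W2)) = 0 := by
        ring
      linarith
  have h7 : 0 < ((1 - a) * (W1 * s22 + c * a) - t * ((W1 - s11 * a) * W2)) * (κ1 - κ) := by
    rw [e]; linarith
  have h8 := (mul_pos_iff_of_pos_right hkk).1 h7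
  linarith

variable {t : ℕ}

/-- members of `A` containing `T` without `x`, and the two parts of them -/
theorem star_parts {A : Finset (Perm (Fin n))} {g : Perm (Fin n)} {T : Finset (Fin n)}
    (hN : NoTwo A g T) {x : Fin n} (hx : x ∈ T) :
    thr (A.filter fun σ => ∀ i ∈ T.erase x, σ i = g i) x (g x) =
        A.filter (fun σ => ∀ i ∈ T, σ i = g i) ∧
      (A.filter fun σ => ∀ i ∈ T.erase x, σ i = g i).filter (fun σ => σ x ≠ g x) =
        A.filter (fun σ => σ x ≠ g x) := by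
  classical
  constructor
  · ext σ
    unfold thr
    simp only [mem_filter]
    constructor
    · rintro ⟨⟨h1, h2⟩, h3⟩
      refine ⟨h1, fun i hi => ?_⟩
      by_cases hix : i = x
      · rw [hix]; exact h3
      · exact h2 i (mem_erase.2 ⟨hix, hi⟩)
    · rintro ⟨h1, h2⟩
      exact ⟨⟨h1, fun i hi => h2 i (mem_erase.1 hi).2⟩, h2 x hx⟩
  · ext σ
    simp only [mem_filter]
    constructor
    · rintro ⟨⟨h1, _⟩, h3⟩
      exact ⟨h1, h3⟩
    · rintro ⟨h1, h3⟩
      refine ⟨⟨h1, fun i hi => ?_⟩, h3⟩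
      obtain ⟨h4, h5⟩ := mem_erase.1 hi
      exact hN σ h1 x hx i h5 (fun h => h4 h.symm) h3

/-- somebody is missed by many -/
theorem exists_missed {A : Finset (Perm (Fin n))} {g : Perm (Fin n)} {T : Finset (Fin n)}
    (hT : T.Nonempty) {F : ℝ} (hF : F ≤ A.card) :
    ∃ x ∈ T, F - ((A.filter (fun σ => ∀ i ∈ T, σ i = g i)).card : ℝ) ≤
      T.card * ((A.filter (fun σ => σ x ≠ g x)).card : ℝ) := by
  classical
  set A0 := A.filter (fun σ => ∀ i ∈ T, σ i = g i) with hA0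
  have h1 : A ⊆ A0 ∪ T.biUnion (fun x => A.filter (fun σ => σ x ≠ g x)) := by
    intro σ hσ
    by_cases h : ∀ i ∈ T, σ i = g i
    · exact mem_union_left _ (mem_filter.2 ⟨hσ, h⟩)
    · push Not at h
      obtain ⟨i, hi, h⟩ := h
      exact mem_union_right _ (mem_biUnion.2 ⟨i, hi, mem_filter.2 ⟨hσ, h⟩⟩)
  have h2 : A.card ≤ A0.card + ∑ x ∈ T, (A.filter (fun σ => σ x ≠ g x)).card :=
    (card_le_card h1).trans ((card_union_le _ _).trans (Nat.add_le_add_left card_biUnion_le _))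
  have h3 : (A.card : ℝ) ≤ A0.card + ∑ x ∈ T, ((A.filter (fun σ => σ x ≠ g x)).card : ℝ) := by
    exact_mod_cast h2
  by_contra hcon
  push Not at hcon
  have h4 := Finset.sum_lt_sum_of_nonempty hT hcon
  rw [← Finset.mul_sum, Finset.sum_const, nsmul_eq_mul] at h4
  have h5 : (0 : ℝ) < T.card := by exact_mod_cast hT.card_pos
  have h6 := lt_of_mul_lt_mul_left h4 h5.le
  linarith

/-- **`Spec` from a scaled certificate at `(t + 2, 1)`** -/
theorem spec_of_scaled (ht : 2 ≤ t) {W1 W2 s11 s12 s22 κ κ1 : ℝ}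
    (h : ScIneq (t + 2) 1 W1 W2 s11 s12 s22) (hκ : 0 ≤ κ) (hkk : κ < κ1)
    (hκ1 : (4 * (t : ℝ) + 1) / (6 * ((t : ℝ) + 1)) < κ1) (hκ2 : κ1 < 1) (hs12 : 0 ≤ s12)
    (hW2 : 0 ≤ W2) (hP : 0 < W1 - s11 * κ) (hP1 : 0 < W1 - s11 * κ1)
    (hc : 0 ≤ s12 ^ 2 - s11 * s22)
    (g1 : t * ((W1 - s11 * κ) * W2) < (1 - κ) * (W1 * s22 + (s12 ^ 2 - s11 * s22) * κ))
    (g2 : t * ((W1 - s11 * κ1) * W2) < (1 - κ1) * (W1 * s22 + (s12 ^ 2 - s11 * s22) * κ1)) :
    Spec t κ := by
  classical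
  intro A g T hA hT hN hF hs
  obtain ⟨s, hs, x0, hx0, hsx0⟩ := hs
  by_contra hcon
  rw [not_le] at hcon
  set A0 := A.filter (fun σ => ∀ i ∈ T, σ i = g i) with hA0
  set F : ℝ := ((t + 1).factorial : ℝ) with hFd
  have hF0 : 0 < F := by rw [hFd]; exact_mod_cast Nat.factorial_pos _
  have htR : (2 : ℝ) ≤ t := by exact_mod_cast ht
  have e1 : t + 2 = 2 * t + 1 - (t - 1) := by omega
  have e2 : 2 * t + 1 - (t - 1) - 1 = t + 1 := by omega
  have hcT : ∀ x ∈ T, (T.erase x).card = t - 1 := fun x hx => by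
    rw [card_erase_of_mem hx, hT]
  have hFx : ∀ x ∈ T, TInt (t - 1 + 1) (A.filter fun σ => ∀ i ∈ T.erase x, σ i = g i) := by
    intro x hx σ hσ τ hτ
    have h1 := hA σ (mem_filter.1 hσ).1 τ (mem_filter.1 hτ).1
    have e3 : t - 1 + 1 = t := by omega
    rw [e3]
    exact h1
  have hFx2 : ∀ x ∈ T, ∀ σ ∈ A.filter (fun σ => ∀ i ∈ T.erase x, σ i = g i),
      ∀ i ∈ T.erase x, σ i = g i := fun x _ σ hσ => (mem_filter.1 hσ).2
  rcases le_or_gt (κ1 * F) (A0.card : ℝ) with hbig | hsmall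
  · -- many members contain `T`: nobody misses `x0`
    have h1 := edge_star (edge_trivial t ht κ1 hκ1) e1 (hcT x0 hx0) (hFx x0 hx0) (hFx2 x0 hx0) x0
      (fun h => (mem_erase.1 h).1 rfl) (by
        rw [(star_parts hN hx0).1, e2]
        exact hbig)
    rw [(star_parts hN hx0).2, zero_mul] at h1
    have h2 : 0 < (A.filter (fun σ => σ x0 ≠ g x0)).card :=
      card_pos.2 ⟨s, mem_filter.2 ⟨hs, hsx0⟩⟩
    have h3 : (0 : ℝ) < ((A.filter (fun σ => σ x0 ≠ g x0)).card : ℝ) := by exact_mod_cast h2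
    linarith
  · have hTn : T.Nonempty := ⟨x0, hx0⟩
    obtain ⟨x, hx, hmx⟩ := exists_missed (g := g) hTn hF
    rw [← hA0, hT] at hmx
    set X : ℝ := (A0.card : ℝ) with hX
    set Y : ℝ := ((A.filter (fun σ => σ x ≠ g x)).card : ℝ) with hY
    have hX0 : 0 < X := lt_of_le_of_lt (mul_nonneg hκ hF0.le) hcon
    set a := X / F with ha
    set y := Y / F with hy
    have ha1 : κ ≤ a := by
      rw [ha, le_div_iff₀ hF0]
      exact hcon.le
    have ha2 : a ≤ κ1 := by
      rw [ha, div_le_iff₀ hF0]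
      exact hsmall.le
    have ha0 : 0 < a := div_pos hX0 hF0
    have hty : 1 - a ≤ t * y := by
      have h1 : (F - X) / F ≤ (t * Y) / F := div_le_div_of_nonneg_right hmx hF0.le
      have h2 : (F - X) / F = 1 - a := by rw [ha]; field_simp
      have h3 : (t * Y) / F = t * y := by rw [hy]; ring
      rw [h2, h3] at h1
      exact h1
    have hy0 : 0 < y := by
      by_contra hneg
      push Not at hneg
      have h1 : (t : ℝ) * y ≤ 0 := mul_nonpos_of_nonneg_of_nonpos (by linarith) hneg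
      linarith
    have hY0 : 0 < Y := by
      rw [hy] at hy0
      exact (div_pos_iff_of_pos_right hF0).1 hy0
    have hPa : 0 < W1 - s11 * a := by
      have h1 : (W1 - s11 * a) * (κ1 - κ) =
          (κ1 - a) * (W1 - s11 * κ) + (a - κ) * (W1 - s11 * κ1) := by ring
      have h2 : 0 < (W1 - s11 * a) * (κ1 - κ) := by
        rw [h1]
        rcases ha1.lt_or_eq with h3 | h3
        · have h4 := mul_pos (sub_pos.2 h3) hP1
          have h5 := mul_nonneg (sub_nonneg.2 ha2) hP.le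
          linarith
        · rw [← h3]
          have h4 := mul_pos (sub_pos.2 hkk) hP
          have h5 : (κ - κ) * (W1 - s11 * κ1) = 0 := by ring
          linarith
      exact (mul_pos_iff_of_pos_right (sub_pos.2 hkk)).1 h2
    have hprod := scaled_prod (W1 := W1) (W2 := W2) (s11 := s11) (s12 := s12) (s22 := s22) hF0 hX0
      hY0 hs12 hPa (by
        intro c hc0
        have h1 := cell_star (h c hc0) e1 (hcT x hx) (hFx x hx) (hFx2 x hx) x
          (fun h => (mem_erase.1 h).1 rfl)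
        rw [(star_parts hN hx).1, (star_parts hN hx).2, e2, ← hA0, ← hX, ← hY, ← hFd] at h1
        exact h1)
    rw [← ha, ← hy] at hprod
    have hconc := conc_pos hc ha1 ha2 hkk g1 g2
    set K := W1 * s22 + (s12 ^ 2 - s11 * s22) * a with hK
    have h1a : 0 < 1 - a := by linarith
    have hPW : 0 ≤ (t : ℝ) * ((W1 - s11 * a) * W2) :=
      mul_nonneg (by linarith) (mul_nonneg hPa.le hW2)
    have hK0 : 0 < K := by
      have h1 : 0 < (1 - a) * K := by linarith
      exact (mul_pos_iff_of_pos_left h1a).1 h1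
    have h2 : (1 - a) * K ≤ (t * y) * K := mul_le_mul_of_nonneg_right hty hK0.le
    have h3 : (t : ℝ) * ((W1 - s11 * a) * W2) < t * (y * K) := by
      calc (t : ℝ) * ((W1 - s11 * a) * W2) < (1 - a) * K := hconc
        _ ≤ (t * y) * K := h2
        _ = t * (y * K) := by ring
    have h4 : (W1 - s11 * a) * W2 < y * K := lt_of_mul_lt_mul_left h3 (by linarith)
    have h5 : y * K = s12 ^ 2 * a * y + (W1 - s11 * a) * (s22 * y) := by rw [hK]; ring
    have h6 : (W1 - s11 * a) * (W2 - s22 * y) = (W1 - s11 * a) * W2 - (W1 - s11 * a) * (s22 * y) := by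
      ring
    linarith

end Pool.EG
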